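import Pool.Agent.Lib.MP_d48993_lc.Interfaces

/-!
# Module DECC of the project CUT (helper15)
-/

set_option autoImplicit false

namespace Pool.Agent.Lib.MP_d48993_lc

open MP_8c048d_lc (pre)

/-- A condition over the same trees, with more frozen nodes. -/
theorem H15.same_le (h2 : OrdStatement) {Tr : ℕ → List ℕ → Prop} {G : ℕ → ℕ}
    (hTr : ∀ e, PC (Tr e)) (P : Cond3 Tr G) (F : List (List ℕ)) (c : Cnd) (hF : P.F ⊆ F)
    (hok : FOk F) (hext : Ext (TE Tr P.E) P.F P.c c) (hs : Safe G c) :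
    P3Le P ⟨P.E, F, c, P.good, hok, hext.valid, hs⟩ := by
  refine ⟨fun _ h => h, hF, ?_⟩
  have h := (h2 Tr G hTr).2.2.1 P.E c.2 c.1 hext.valid
  show Ext (TE Tr P.E) P.F P.c (resT (TE Tr P.E) (c.1, c.2))
  rw [h]
  exact hext

theorem decC (h1 : Step2bStatement) (h2 : OrdStatement) (h3 : TecStatement) :
    DecCStatement := by
  intro Tr G φ hTr hG hφ hmon P
  by_contra hcon
  push Not at hcon
  obtain ⟨t1, t2, t3⟩ := h3 Tr P.E hTr
  have hfail : Failing G (TE Tr P.E) φ P.F P.c := by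
    intro F c hF hok hext hs
    obtain ⟨q1, q2⟩ := hcon _ (H15.same_le h2 (fun e => hTr.tree e) P F c hF hok hext hs)
    exact ⟨q1, q2⟩
  obtain ⟨e, he, hpath⟩ := t3 G (h1 G (TE Tr P.E) φ P.F P.c hG t1 t2 hφ hmon P.fok P.valid
    P.safe hfail)
  exact P.good e he hpath

theorem decB (h1 : Step2cStatement) (h2 : OrdStatement) (h3 : TecStatement) :
    DecBStatement := by
  intro Tr G φ TB hTr hφ hmon hTB hG P
  by_contra hcon
  push Not at hcon
  obtain ⟨t1, -, -⟩ := h3 Tr P.E hTr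
  obtain ⟨f, hf, hp⟩ := h1 G (TE Tr P.E) TB φ P.F P.c t1 hTB hφ hmon P.valid P.safe (by
    intro c hext hs
    obtain ⟨q1, q2⟩ := hcon _ (H15.same_le h2 (fun e => hTr.tree e) P P.F c (fun _ h => h)
      P.fok hext hs)
    exact ⟨q1, q2⟩)
  exact hG ⟨f, hp, hf⟩

end Pool.Agent.Lib.MP_d48993_lc
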