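import Pool.Agent.Lib.MP_d48993_lc.Interfaces
import Pool.Agent.Lib.MP_f26228_lc.RE

/-!
# Module G1 of the project CUT (helper15)
-/

set_option autoImplicit false

namespace Pool.Agent.Lib.MP_d48993_lc

open MP_8c048d_lc (pre length_pre pre_take pre_getElem?)
open MP_f26228_lc (re_comp re_and re_exists)

namespace H15

section

variable {α β : Type} [Primcodable α] [Primcodable β]

theorem eq_re [DecidableEq β] {f g : α → β} (hf : Computable f) (hg : Computable g) :
    REPred (fun a => f a = g a) := by
  have h1 : ComputablePred (fun a => f a = g a) := by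
    refine ⟨fun a => inferInstance, ?_⟩
    have h2 : Computable (fun a => f a == g a) := (Primrec.beq (α := β)).to_comp.comp hf hg
    refine h2.of_eq fun a => ?_
    by_cases h : f a = g a <;> simp [h]
  exact h1.to_re

theorem prefix_re {f g : α → List ℕ} (hf : Computable f) (hg : Computable g) :
    REPred (fun a => f a <+: g a) := by
  have h1 : Computable (fun a => (g a).take (f a).length) :=
    (Primrec.list_take (α := ℕ)).to_comp.comp (Computable.list_length.comp hf) hg
  refine (eq_re hf h1).of_eq fun a => ?_
  exact List.prefix_iff_eq_take.symm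

end

theorem bound (q : List (List ℕ × List ℕ)) :
    ∃ K, ∀ p ∈ q, ∀ m < p.2.length, Encodable.encode (p.2.take m) < K := by
  induction q with
  | nil => exact ⟨0, by simp⟩
  | cons a q ih =>
    obtain ⟨K, hK⟩ := ih
    refine ⟨max K ((Finset.range a.2.length).sup (fun m => Encodable.encode (a.2.take m)) + 1), ?_⟩
    intro p hp m hm
    rcases List.mem_cons.1 hp with rfl | hp
    · have := Finset.le_sup (f := fun m => Encodable.encode (p.2.take m)) (Finset.mem_range.2 hm)
      omega
    · have := hK p hp m hm
      omega

end H15

open H15 in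
theorem g1 (h1 : ExtCompStatement) (h2 : SafeCompStatement) : G1Statement := by
  intro G T φ F c π hG hT hφ _ hbl
  by_contra hcon
  push Not at hcon
  obtain ⟨hA, hB⟩ := hcon
  -- the r.e. set
  let W : List ℕ → Prop := fun γ => ∃ x : Cnd × (List ℕ × ℕ),
    (Ext T F c x.1 ∧ SafeF γ x.1) ∧ (π <+: x.2.1 ∧ x.2.1 ++ [x.2.2 % 4] <+: φ x.1.1) ∧
      γ[Encodable.encode x.2.1]? = some x.2.2
  have hW : REPred W := by
    refine re_exists (p := fun γ (x : Cnd × (List ℕ × ℕ)) =>
      (Ext T F c x.1 ∧ SafeF γ x.1) ∧ (π <+: x.2.1 ∧ x.2.1 ++ [x.2.2 % 4] <+: φ x.1.1) ∧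
      γ[Encodable.encode x.2.1]? = some x.2.2) ?_
    have cC : Computable (fun z : List ℕ × (Cnd × (List ℕ × ℕ)) => z.2.1) :=
      Computable.fst.comp Computable.snd
    have cT : Computable (fun z : List ℕ × (Cnd × (List ℕ × ℕ)) => z.2.2.1) :=
      Computable.fst.comp (Computable.snd.comp Computable.snd)
    have cV : Computable (fun z : List ℕ × (Cnd × (List ℕ × ℕ)) => z.2.2.2) :=
      Computable.snd.comp (Computable.snd.comp Computable.snd)
    refine re_and (re_and ?_ ?_) (re_and (re_and ?_ ?_) ?_)
    · exact re_comp (h1 T hT).to_re (f := fun z : List ℕ × (Cnd × (List ℕ × ℕ)) =>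
        (F, c, z.2.1)) ((Computable.const F).pair ((Computable.const c).pair cC))
    · exact re_comp h2.1.to_re (f := fun z : List ℕ × (Cnd × (List ℕ × ℕ)) =>
        (z.1, z.2.1)) (Computable.fst.pair cC)
    · exact prefix_re (Computable.const π) cT
    · refine prefix_re ?_ (hφ.comp (Computable.fst.comp cC))
      have hmod : Computable (fun z : List ℕ × (Cnd × (List ℕ × ℕ)) => z.2.2.2 % 4) :=
        Primrec.nat_mod.to_comp.comp cV (Computable.const 4)
      have hsing : Computable (fun z : List ℕ × (Cnd × (List ℕ × ℕ)) => [z.2.2.2 % 4]) :=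
        Computable.list_cons.comp hmod (Computable.const [])
      exact Computable.list_append.comp cT hsing
    · refine eq_re ?_ (Computable.option_some.comp cV)
      exact Computable.list_getElem?.comp Computable.fst (Computable.encode.comp cT)
  obtain ⟨k, hk⟩ := hG W hW
  rcases hk with ⟨⟨c', τ, v⟩, ⟨hext, hsafe⟩, ⟨-, hpre⟩, hget⟩ | hno
  · -- a safe condition with an unsafe value
    simp only at hext hsafe hpre hget
    have hs : Safe G c' := h2.2.2 G k c' hsafe
    have ht := hA c' hext hs
    rw [pre_getElem?] at hget
    split_ifs at hget with hlt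
    have hv : v = G (Encodable.encode τ) := by simpa using hget.symm
    obtain ⟨t, ht'⟩ := hpre
    have hlen : τ.length < (φ c'.1).length := by
      rw [← ht']; simp
    have := ht.2 τ.length hlen
    apply this
    have e1 : (φ c'.1)[τ.length]'hlen = v % 4 := by
      have : (φ c'.1)[τ.length]? = some (v % 4) := by
        rw [← ht']; simp
      rw [List.getElem?_eq_getElem hlen] at this
      simpa using this
    have e2 : (φ c'.1).take τ.length = τ := by
      rw [← ht']; simp
    rw [e1, e2, hv]
    rfl
  · -- long values above `π`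
    obtain ⟨c', hext, hsafe, hπ, hL⟩ := hB (max π.length k)
    have ht := hA c' hext hsafe
    set σ := φ c'.1 with hσ
    set L := max π.length k with hLd
    have hτlen : (σ.take L).length = L := by simp; omega
    have hπτ : π <+: σ.take L := by
      rw [List.prefix_iff_eq_take] at hπ ⊢
      rw [List.take_take, min_eq_left (le_max_left _ _)]
      exact hπ
    have henc : k ≤ Encodable.encode (σ.take L) := by
      have := Encodable.length_le_encode (σ.take L)
      rw [hτlen] at this
      exact le_trans (le_max_right _ _) this
    obtain ⟨K, hK⟩ := bound c'.2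
    set τ := σ.take L with hτ
    set i := Encodable.encode τ with hi
    set K' := max K (i + 1) with hK'
    set γ := (pre G K').set i σ[L] with hγ
    have hKi : i < K' := by omega
    have hγlen : γ.length = K' := by simp [hγ, length_pre]
    have hγi : γ[i]? = some σ[L] := by
      rw [hγ, List.getElem?_set_self]
      rw [length_pre]; exact hKi
    have hγj : ∀ j < K', j ≠ i → γ[j]? = some (G j) := by
      intro j hj hji
      rw [hγ, List.getElem?_set_ne (Ne.symm hji), pre_getElem?, if_pos hj]
    have hpreγ : pre G k <+: γ := by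
      rw [List.prefix_iff_getElem?]
      intro j hj
      rw [length_pre] at hj
      rw [hγj j (by omega) (by omega)]
      have : (pre G k)[j]? = some (G j) := by rw [pre_getElem?, if_pos hj]
      rw [List.getElem?_eq_getElem (by rw [length_pre]; exact hj)] at this
      exact this.symm
    refine hno γ hpreγ ⟨(c', τ, σ[L]), ⟨hext, ?_⟩, ⟨hπτ, ?_⟩, hγi⟩
    · intro p hp
      obtain ⟨q1, q2⟩ := hsafe p hp
      refine ⟨q1, fun m hm => ?_⟩
      have hne : Encodable.encode (p.2.take m) ≠ i := by
        intro he
        have he' : p.2.take m = τ := Encodable.encode_injective he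
        refine hbl c' hext p hp ?_
        rw [← he'] at hπτ
        exact hπτ.trans (List.take_prefix _ _)
      have hlt := hK p hp m hm
      exact ⟨_, hγj _ (by omega) hne, q2 m hm⟩
    · have h4 : σ[L] < 4 := ht.1 _ (List.getElem_mem _)
      simp only
      rw [Nat.mod_eq_of_lt h4, hτ, List.take_concat_get' σ L hL]
      exact List.take_prefix _ _

end Pool.Agent.Lib.MP_d48993_lc
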